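import Mathlib

/-!
# A minimal foliation of the metric Lie group `ℍ² × ℝ` that is not a product foliation by planes

Let `X = Aff(ℝ) × ℝ` with the left-invariant metric `e^{-2t} dx² + dt² + dz²`; with `y = e^t` this
is `(dx² + dy²) / y² + dz²`, i.e. `X` is isometric to `ℍ² × ℝ`.  The function
`v = e^{-t} cos z = (cos z) / y` has no critical points and all components of its level sets are
minimal surfaces.  They are the leaves of a smooth foliation.  The leaves `z = -π/2` and `z = π/2`
are both limits of the leaves `v = c`, `c → 0`, so the leaf space is not Hausdorff and the foliation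
is not a product foliation by planes.
-/

open scoped ContDiff Topology
open Set Filter

noncomputable section

namespace Pool.Agent.Results.MP_c71f82_gt.NonProductH2R

/-- The manifold `ℝ³`. -/
abbrev V : Type := ℝ × ℝ × ℝ

/-- A field of bilinear forms on `ℝ³`: `g x u v` is the value at the point `x` on the tangent
vectors `u`, `v`. -/
abbrev BilinField : Type := V → V → V → ℝ

/-- `(mul, one, inv)` is a Lie group structure on the manifold `ℝ³`. -/
structure IsLieGroup (mul : V → V → V) (one : V) (inv : V → V) : Prop where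
  mul_assoc : ∀ a b c, mul (mul a b) c = mul a (mul b c)
  one_mul : ∀ a, mul one a = a
  inv_mul : ∀ a, mul (inv a) a = one
  smooth_mul : ContDiff ℝ ∞ (fun p : V × V => mul p.1 p.2)
  smooth_inv : ContDiff ℝ ∞ inv

/-- `g` is a smooth Riemannian metric on `ℝ³`. -/
structure IsRiemannianMetric (g : BilinField) : Prop where
  smooth : ContDiff ℝ ∞ (fun p : V × V × V => g p.1 p.2.1 p.2.2)
  linear : ∀ x u v w, ∀ a : ℝ, g x (a • u + v) w = a * g x u w + g x v w
  symm : ∀ x u v, g x u v = g x v u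
  pos : ∀ x u, u ≠ 0 → 0 < g x u u

/-- `g` is left-invariant for the multiplication `mul`. -/
def IsLeftInvariant (mul : V → V → V) (g : BilinField) : Prop :=
  ∀ a x u v, g (mul a x) (fderiv ℝ (mul a) x u) (fderiv ℝ (mul a) x v) = g x u v

/-- `(ℝ³, g)` is a (simply connected, 3-dimensional) metric Lie group: `g` is a Riemannian metric
that is left-invariant for some Lie group structure on `ℝ³`. -/
def IsMetricLieGroup (g : BilinField) : Prop :=
  IsRiemannianMetric g ∧ ∃ mul one inv, IsLieGroup mul one inv ∧ IsLeftInvariant mul g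

/-- The 1-form `ω = g(N, ·)`: `conormal g N x u = g_x(N(x), u)`. -/
def conormal (g : BilinField) (N : V → V) (x u : V) : ℝ := g x (N x) u

/-- `N` is the unit normal field of a smooth (transversely oriented) codimension-one foliation of
`ℝ³`: `N` is smooth and of unit length, and the plane field `N^⊥` is integrable (Frobenius:
`dω = 0` on `ker ω`, where `ω = g(N, ·)`). -/
structure IsFoliation (g : BilinField) (N : V → V) : Prop where
  smooth : ContDiff ℝ ∞ N
  unit : ∀ x, g x (N x) (N x) = 1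
  integrable : ∀ x u v, conormal g N x u = 0 → conormal g N x v = 0 →
    fderiv ℝ (fun y => conormal g N y v) x u - fderiv ℝ (fun y => conormal g N y u) x v = 0

/-- `x` and `y` lie on the same leaf of the foliation `N^⊥`: they are joined by a smooth curve
tangent to the foliation. -/
def SameLeaf (g : BilinField) (N : V → V) (x y : V) : Prop :=
  ∃ γ : ℝ → V, ContDiff ℝ ∞ γ ∧ γ 0 = x ∧ γ 1 = y ∧ ∀ t, conormal g N (γ t) (deriv γ t) = 0

/-- The second fundamental form of the leaves, `h(u, v) = g(∇_u N, v) = (1/2) (L_N g)(u, v)` for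
`u`, `v` tangent to the leaf. -/
def secondFF (g : BilinField) (N : V → V) (x u v : V) : ℝ :=
  (1 / 2) * (fderiv ℝ (fun y => g y u v) x (N x) + g x (fderiv ℝ N x u) v + g x u (fderiv ℝ N x v))

/-- The leaf through `x` has mean curvature `H` at `x` (the average of the principal curvatures,
with respect to the normal `N`): `h(e₁, e₁) + h(e₂, e₂) = 2 H` for every orthonormal basis
`(e₁, e₂)` of the tangent plane of the leaf. -/
def HasMeanCurvature (g : BilinField) (N : V → V) (x : V) (H : ℝ) : Prop :=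
  ∀ e₁ e₂ : V, conormal g N x e₁ = 0 → conormal g N x e₂ = 0 → g x e₁ e₁ = 1 → g x e₂ e₂ = 1 →
    g x e₁ e₂ = 0 → secondFF g N x e₁ e₁ + secondFF g N x e₂ e₂ = 2 * H

/-- A CMC foliation: every leaf has constant mean curvature. -/
def IsCMCFoliation (g : BilinField) (N : V → V) : Prop :=
  IsFoliation g N ∧ ∃ H : V → ℝ, (∀ x, HasMeanCurvature g N x (H x)) ∧
    ∀ x y, SameLeaf g N x y → H x = H y

/-- A product foliation by planes: some diffeomorphism `ℝ³ → ℝ² × ℝ` carries the leaves onto the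
slices `ℝ² × {t}`. -/
def IsProductByPlanes (g : BilinField) (N : V → V) : Prop :=
  ∃ (Φ : V → (ℝ × ℝ) × ℝ) (Ψ : (ℝ × ℝ) × ℝ → V), ContDiff ℝ ∞ Φ ∧ ContDiff ℝ ∞ Ψ ∧
    (∀ x, Ψ (Φ x) = x) ∧ (∀ y, Φ (Ψ y) = y) ∧ ∀ x y, SameLeaf g N x y ↔ (Φ x).2 = (Φ y).2

/-! ### The non-product criterion -/

/-- If the tangent planes are the kernels of `-f(z) dt + f'(z) dz` (i.e. the leaves are the
components of the level sets of `e^{-t} f(z)`), with `f` even, positive on `(-b, b)` and zero at
`b`, then the foliation is not a product foliation. -/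
theorem not_product {g : BilinField} {N : V → V} (f : ℝ → ℝ) (hf : ContDiff ℝ ∞ f) (b : ℝ)
    (hb : 0 < b) (heven : ∀ z, f (-z) = f z) (hpos : ∀ z, |z| < b → 0 < f z) (hfb : f b = 0)
    (hω : ∀ x u, conormal g N x u = 0 ↔ - f x.2.2 * u.2.1 + deriv f x.2.2 * u.2.2 = 0) :
    ¬ IsProductByPlanes g N := by
  rintro ⟨Φ, Ψ, hΦ, -, -, -, hleaf⟩
  have hfd : ∀ z, HasDerivAt f (deriv f z) z := fun z =>
    (hf.differentiable (by simp) z).hasDerivAt
  -- points on a common leaf
  have hsame : ∀ s, 0 < s → s < b → SameLeaf g N (0, 0, -s) (0, 0, s) := by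
    intro s hs hsb
    set z : ℝ → ℝ := fun r => - s * Real.cos (Real.pi * r) with hz
    have hzb : ∀ r, |z r| < b := by
      intro r
      simp only [hz]
      rw [abs_mul, abs_neg, abs_of_pos hs]
      have := Real.abs_cos_le_one (Real.pi * r)
      nlinarith
    have hzs : ContDiff ℝ ∞ z := by
      simp only [hz]
      exact contDiff_const.mul (Real.contDiff_cos.comp (contDiff_const.mul contDiff_id))
    have hzd : ∀ r, HasDerivAt z (deriv z r) r := fun r =>
      (hzs.differentiable (by simp) r).hasDerivAt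
    set T : ℝ → ℝ := fun r => Real.log (f (z r)) - Real.log (f s) with hT
    have hTs : ContDiff ℝ ∞ T := by
      simp only [hT]
      refine ContDiff.sub ?_ contDiff_const
      exact (hf.comp hzs).log (fun r => (hpos _ (hzb r)).ne')
    have hTd : ∀ r, HasDerivAt T (deriv f (z r) * deriv z r / f (z r)) r := by
      intro r
      simp only [hT]
      have h1 : HasDerivAt (fun r => f (z r)) (deriv f (z r) * deriv z r) r :=
        (hfd (z r)).comp r (hzd r)
      exact (h1.log (hpos _ (hzb r)).ne').sub_const _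
    refine ⟨fun r => (0, T r, z r), contDiff_const.prodMk (hTs.prodMk hzs), ?_, ?_, ?_⟩
    · simp only [hT, hz]
      simp [heven]
    · simp only [hT, hz]
      simp
    · intro r
      rw [hω]
      have hd : deriv (fun r => ((0 : ℝ), T r, z r)) r
          = (0, deriv f (z r) * deriv z r / f (z r), deriv z r) :=
        ((hasDerivAt_const r (0 : ℝ)).prodMk ((hTd r).prodMk (hzd r))).deriv
      rw [hd]
      simp only
      have := (hpos _ (hzb r)).ne'
      field_simp
      ring
  -- the limits are on a common leaf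
  have hlim : (Φ (0, 0, -b)).2 = (Φ (0, 0, b)).2 := by
    have hc1 : Continuous (fun s : ℝ => (Φ (0, 0, -s)).2) :=
      (continuous_snd.comp hΦ.continuous).comp (by fun_prop)
    have hc2 : Continuous (fun s : ℝ => (Φ (0, 0, s)).2) :=
      (continuous_snd.comp hΦ.continuous).comp (by fun_prop)
    have h1 : Tendsto (fun s : ℝ => (Φ (0, 0, -s)).2) (𝓝[<] b) (𝓝 ((Φ (0, 0, -b)).2)) :=
      (hc1.tendsto b).mono_left nhdsWithin_le_nhds
    have h2 : Tendsto (fun s : ℝ => (Φ (0, 0, s)).2) (𝓝[<] b) (𝓝 ((Φ (0, 0, b)).2)) :=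
      (hc2.tendsto b).mono_left nhdsWithin_le_nhds
    refine tendsto_nhds_unique h1 (h2.congr' ?_)
    have hev : ∀ᶠ s in 𝓝[<] b, 0 < s ∧ s < b := by
      filter_upwards [Ioo_mem_nhdsLT hb] with s hs
      exact ⟨hs.1, hs.2⟩
    filter_upwards [hev] with s hs
    exact ((hleaf _ _).1 (hsame s hs.1 hs.2)).symm
  obtain ⟨γ, hγ, hγ0, hγ1, hγt⟩ := (hleaf _ _).2 hlim
  -- `e^{-t} f(z)` is constant along `γ`
  have hγd : ∀ r, HasDerivAt γ (deriv γ r) r := fun r =>
    (hγ.differentiable (by simp) r).hasDerivAt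
  have hd1 : ∀ r, HasDerivAt (fun r => (γ r).2.1) (deriv γ r).2.1 r := fun r =>
    (hγd r).snd.fst
  have hd2 : ∀ r, HasDerivAt (fun r => (γ r).2.2) (deriv γ r).2.2 r := fun r =>
    (hγd r).snd.snd
  have hconst : ∀ r, HasDerivAt (fun r => Real.exp (-(γ r).2.1) * f (γ r).2.2) 0 r := by
    intro r
    have h1 : HasDerivAt (fun r => Real.exp (-(γ r).2.1))
        (Real.exp (-(γ r).2.1) * (-(deriv γ r).2.1)) r := (hd1 r).neg.exp
    have h2 : HasDerivAt (fun r => f (γ r).2.2) (deriv f (γ r).2.2 * (deriv γ r).2.2) r :=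
      (hfd _).comp r (hd2 r)
    have h3 := h1.mul h2
    have h4 := (hω _ _).1 (hγt r)
    refine h3.congr_deriv ?_
    linear_combination (Real.exp (-(γ r).2.1)) * h4
  have hzero : ∀ r, f (γ r).2.2 = 0 := by
    intro r
    have h1 : Real.exp (-(γ r).2.1) * f (γ r).2.2 = Real.exp (-(γ 0).2.1) * f (γ 0).2.2 :=
      is_const_of_deriv_eq_zero (fun r => (hconst r).differentiableAt)
        (fun r => (hconst r).deriv) r 0
    rw [hγ0] at h1
    simp only [heven, hfb, mul_zero] at h1
    rcases mul_eq_zero.1 h1 with h | h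
    · exact absurd h (Real.exp_pos _).ne'
    · exact h
  -- intermediate value theorem
  have hcont : Continuous (fun r => (γ r).2.2) := (hγ.continuous.snd).snd
  have hivt : (0 : ℝ) ∈ (fun r => (γ r).2.2) '' Icc (0 : ℝ) 1 := by
    apply intermediate_value_Icc zero_le_one hcont.continuousOn
    simp only [hγ0, hγ1]
    constructor <;> linarith
  obtain ⟨r, -, hr⟩ := hivt
  have h5 := hzero r
  simp only at hr
  rw [hr] at h5
  have := hpos 0 (by simpa using hb)
  linarith


/-! ### The hyperbolic plane times the line -/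

section H2R

/-- Coordinate forms. -/
def dx : V →L[ℝ] ℝ := ContinuousLinearMap.fst ℝ ℝ (ℝ × ℝ)

/-- Coordinate forms. -/
def dt : V →L[ℝ] ℝ := (ContinuousLinearMap.fst ℝ ℝ ℝ).comp (ContinuousLinearMap.snd ℝ ℝ (ℝ × ℝ))

/-- Coordinate forms. -/
def dz : V →L[ℝ] ℝ := (ContinuousLinearMap.snd ℝ ℝ ℝ).comp (ContinuousLinearMap.snd ℝ ℝ (ℝ × ℝ))

@[simp] lemma dx_apply (u : V) : dx u = u.1 := rfl
@[simp] lemma dt_apply (u : V) : dt u = u.2.1 := rfl
@[simp] lemma dz_apply (u : V) : dz u = u.2.2 := rfl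

/-- The metric `e^{-2t} dx² + dt² + dz²` of `ℍ² × ℝ` (with `y = e^t` it is
`(dx² + dy²) / y² + dz²`). -/
def gH (p u w : V) : ℝ :=
  Real.exp (-2 * p.2.1) * (u.1 * w.1) + (u.2.1 * w.2.1 + u.2.2 * w.2.2)

/-- The group law of `Aff(ℝ) × ℝ`. -/
def mulH (p q : V) : V := (p.1 + Real.exp p.2.1 * q.1, p.2.1 + q.2.1, p.2.2 + q.2.2)

/-- The inverse. -/
def invH (p : V) : V := (- Real.exp (-p.2.1) * p.1, -p.2.1, -p.2.2)

lemma isLieGroup_H : IsLieGroup mulH (0, 0, 0) invH where
  mul_assoc a b c := by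
    simp only [mulH, Prod.mk.injEq]
    refine ⟨?_, by ring, by ring⟩
    rw [Real.exp_add]
    ring
  one_mul a := by simp [mulH]
  inv_mul a := by
    simp only [mulH, invH, Prod.mk.injEq]
    refine ⟨by ring, by ring, by ring⟩
  smooth_mul := by
    unfold mulH
    fun_prop
  smooth_inv := by
    unfold invH
    fun_prop

lemma isRiemannianMetric_gH : IsRiemannianMetric gH where
  smooth := by
    unfold gH
    fun_prop
  linear x u v w a := by
    simp only [gH, Prod.fst_add, Prod.snd_add, Prod.smul_fst, Prod.smul_snd, smul_eq_mul]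
    ring
  symm x u v := by simp only [gH]; ring
  pos x u hu := by
    simp only [gH]
    have he : 0 < Real.exp (-2 * x.2.1) := Real.exp_pos _
    by_contra hcon
    apply hu
    have h1 : 0 ≤ Real.exp (-2 * x.2.1) * (u.1 * u.1) := mul_nonneg he.le (mul_self_nonneg _)
    have h2 : 0 ≤ u.2.1 * u.2.1 := mul_self_nonneg _
    have h3 : 0 ≤ u.2.2 * u.2.2 := mul_self_nonneg _
    have h4 : Real.exp (-2 * x.2.1) * (u.1 * u.1) = 0 := by linarith
    have h5 : u.2.1 * u.2.1 = 0 := by linarith
    have h6 : u.2.2 * u.2.2 = 0 := by linarith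
    have h7 : u.1 * u.1 = 0 := by
      rcases mul_eq_zero.1 h4 with h | h
      · exact absurd h he.ne'
      · exact h
    refine Prod.ext (mul_self_eq_zero.1 h7) (Prod.ext (mul_self_eq_zero.1 h5)
      (mul_self_eq_zero.1 h6))

lemma isLeftInvariant_gH : IsLeftInvariant mulH gH := by
  intro a x u v
  have h : ∀ u, fderiv ℝ (mulH a) x u = (Real.exp a.2.1 * u.1, u.2.1, u.2.2) := by
    intro u
    have h1 : HasFDerivAt (mulH a)
        ((Real.exp a.2.1 • dx).prod (dt.prod dz)) x := by
      unfold mulH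
      refine HasFDerivAt.prodMk ?_ (HasFDerivAt.prodMk ?_ ?_)
      · exact (dx.hasFDerivAt.const_mul (Real.exp a.2.1)).const_add a.1
      · exact dt.hasFDerivAt.const_add a.2.1
      · exact dz.hasFDerivAt.const_add a.2.2
    rw [h1.fderiv]
    simp
  rw [h, h]
  simp only [mulH, gH]
  have : Real.exp (-2 * (a.2.1 + x.2.1)) * (Real.exp a.2.1 * Real.exp a.2.1)
      = Real.exp (-2 * x.2.1) := by
    rw [← Real.exp_add, ← Real.exp_add]
    congr 1
    ring
  linear_combination (u.1 * v.1) * this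

lemma isMetricLieGroup_gH : IsMetricLieGroup gH :=
  ⟨isRiemannianMetric_gH, mulH, (0, 0, 0), invH, isLieGroup_H, isLeftInvariant_gH⟩

/-- The unit normal field: the direction of the gradient of `e^{-t} cos z = (cos z) / y`. -/
def NH (p : V) : V := (0, - Real.cos p.2.2, - Real.sin p.2.2)

lemma conormal_NH (p u : V) : conormal gH NH p u = - Real.cos p.2.2 * u.2.1 - Real.sin p.2.2 * u.2.2 := by
  simp only [conormal, gH, NH]
  ring

lemma smooth_NH : ContDiff ℝ ∞ NH := by
  unfold NH
  fun_prop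

lemma fderiv_NH (p u : V) :
    fderiv ℝ NH p u = (0, Real.sin p.2.2 * u.2.2, - Real.cos p.2.2 * u.2.2) := by
  have h1 : HasFDerivAt NH ((0 : V →L[ℝ] ℝ).prod
      ((Real.sin p.2.2 • dz).prod (-(Real.cos p.2.2 • dz)))) p := by
    unfold NH
    refine HasFDerivAt.prodMk (hasFDerivAt_const _ _) (HasFDerivAt.prodMk ?_ ?_)
    · have := (dz.hasFDerivAt (x := p)).cos.neg
      refine this.congr_fderiv ?_
      ext <;> simp
    · exact (dz.hasFDerivAt (x := p)).sin.neg
  rw [h1.fderiv]
  simp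

lemma fderiv_gH (p n u w : V) :
    fderiv ℝ (fun y => gH y u w) p n = -2 * n.2.1 * Real.exp (-2 * p.2.1) * (u.1 * w.1) := by
  have h1 : HasFDerivAt (fun p : V => Real.exp (-2 * p.2.1))
      (Real.exp (-2 * p.2.1) • ((-2 : ℝ) • dt)) p :=
    (dt.hasFDerivAt.const_mul (-2)).exp
  have h2 : HasFDerivAt (fun y => gH y u w)
      ((u.1 * w.1) • (Real.exp (-2 * p.2.1) • ((-2 : ℝ) • dt))) p :=
    (h1.mul_const (u.1 * w.1)).add_const _
  rw [h2.fderiv]
  simp only [smul_apply, dt_apply, smul_eq_mul]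
  ring

lemma secondFF_H (p u : V) : secondFF gH NH p u u
    = Real.cos p.2.2 * (Real.exp (-2 * p.2.1) * (u.1 * u.1))
      + Real.sin p.2.2 * u.2.2 * u.2.1 - Real.cos p.2.2 * (u.2.2 * u.2.2) := by
  rw [secondFF, fderiv_gH, fderiv_NH]
  simp only [gH, NH]
  ring

lemma isFoliation_NH : IsFoliation gH NH where
  smooth := smooth_NH
  unit x := by
    simp only [gH, NH]
    have := Real.sin_sq_add_cos_sq x.2.2
    nlinarith
  integrable x u v hu hv := by
    have hd : ∀ w u : V, fderiv ℝ (fun y => conormal gH NH y w) x u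
        = Real.sin x.2.2 * u.2.2 * w.2.1 - Real.cos x.2.2 * u.2.2 * w.2.2 := by
      intro w u
      have h1 : HasFDerivAt (fun y => conormal gH NH y w)
          (w.2.1 • (-(-Real.sin x.2.2 • dz)) - w.2.2 • (Real.cos x.2.2 • dz)) x := by
        simp only [conormal_NH]
        exact ((dz.hasFDerivAt (x := x)).cos.neg.mul_const w.2.1).sub
          ((dz.hasFDerivAt (x := x)).sin.mul_const w.2.2)
      rw [h1.fderiv]
      simp
      ring
    rw [hd, hd]
    rw [conormal_NH] at hu hv
    have hcs := Real.sin_sq_add_cos_sq x.2.2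
    set c := Real.cos x.2.2
    set s := Real.sin x.2.2
    -- `(u_t, u_z)` and `(v_t, v_z)` are proportional to `(s, -c)`
    have e : s * (u.2.2 * v.2.1 - v.2.2 * u.2.1) = 0 ∧ c * (u.2.2 * v.2.1 - v.2.2 * u.2.1) = 0 := by
      constructor
      · linear_combination (-v.2.1) * hu + u.2.1 * hv
      · linear_combination (-u.2.2) * hv + v.2.2 * hu
    linear_combination e.1

lemma meanCurvature_H (p : V) : HasMeanCurvature gH NH p 0 := by
  intro e₁ e₂ h1 h2 h11 h22 h12
  rw [secondFF_H, secondFF_H]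
  rw [conormal_NH] at h1 h2
  simp only [gH] at h11 h22 h12
  have hcs := Real.sin_sq_add_cos_sq p.2.2
  set c := Real.cos p.2.2
  set s := Real.sin p.2.2
  obtain ⟨E, hE, hE2⟩ : ∃ E : ℝ, E * E = Real.exp (-2 * p.2.1) ∧ 0 < E := by
    refine ⟨Real.exp (-p.2.1), ?_, Real.exp_pos _⟩
    rw [← Real.exp_add]
    congr 1
    ring
  rw [← hE] at h11 h22 h12 ⊢
  -- coordinates in the orthonormal basis of the tangent plane
  have ht : ∀ u : V, -c * u.2.1 - s * u.2.2 = 0 →
      u.2.1 = (s * u.2.1 - c * u.2.2) * s ∧ u.2.2 = -(s * u.2.1 - c * u.2.2) * c := by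
    intro u hu
    constructor
    · linear_combination (-u.2.1) * hcs - c * hu
    · linear_combination (-u.2.2) * hcs - s * hu
  obtain ⟨t1, z1⟩ := ht e₁ h1
  obtain ⟨t2, z2⟩ := ht e₂ h2
  obtain ⟨b1, hb1⟩ : ∃ b, b = s * e₁.2.1 - c * e₁.2.2 := ⟨_, rfl⟩
  obtain ⟨b2, hb2⟩ : ∃ b, b = s * e₂.2.1 - c * e₂.2.2 := ⟨_, rfl⟩
  rw [← hb1] at t1 z1
  rw [← hb2] at t2 z2
  rw [t1, z1] at h11 h12 ⊢
  rw [t2, z2] at h22 h12 ⊢
  obtain ⟨a1, ha1⟩ : ∃ a, a = E * e₁.1 := ⟨_, rfl⟩
  obtain ⟨a2, ha2⟩ : ∃ a, a = E * e₂.1 := ⟨_, rfl⟩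
  have k1 : a1 * a1 + b1 * b1 = 1 := by
    rw [ha1]; linear_combination h11 - b1 * b1 * hcs
  have k2 : a2 * a2 + b2 * b2 = 1 := by
    rw [ha2]; linear_combination h22 - b2 * b2 * hcs
  have k3 : a1 * a2 + b1 * b2 = 0 := by
    rw [ha1, ha2]; linear_combination h12 - b1 * b2 * hcs
  have k4 : b1 * b1 + b2 * b2 = 1 := by
    have e1 : (1 - b1 * b1) * (1 - b2 * b2) = (b1 * b2) * (b1 * b2) := by
      have f1 : a1 * a1 = 1 - b1 * b1 := by linarith
      have f2 : a2 * a2 = 1 - b2 * b2 := by linarith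
      have f3 : a1 * a2 = -(b1 * b2) := by linarith
      rw [← f1, ← f2]
      calc a1 * a1 * (a2 * a2) = (a1 * a2) * (a1 * a2) := by ring
        _ = (b1 * b2) * (b1 * b2) := by rw [f3]; ring
    linarith
  have key : c * (E * E * (e₁.1 * e₁.1)) + c * (E * E * (e₂.1 * e₂.1)) = c * (a1 * a1 + a2 * a2) := by
    rw [ha1, ha2]; ring
  linear_combination key + c * k1 + c * k2 - 2 * c * k4 - c * (b1 * b1 + b2 * b2) * hcs

lemma isCMCFoliation_NH : IsCMCFoliation gH NH :=
  ⟨isFoliation_NH, fun _ => 0, meanCurvature_H, fun _ _ _ => rfl⟩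

lemma not_isProductByPlanes_NH : ¬ IsProductByPlanes gH NH := by
  refine not_product Real.cos Real.contDiff_cos (Real.pi / 2) (by positivity) Real.cos_neg
    (fun z hz => Real.cos_pos_of_mem_Ioo (abs_lt.1 hz)) Real.cos_pi_div_two (fun p u => ?_)
  rw [conormal_NH, Real.deriv_cos]
  constructor <;> intro h <;> linarith

end H2R

/-- **Main result.** The metric Lie group `(ℝ³, gH)`, isometric to `ℍ² × ℝ`, has a CMC foliation,
with unit normal field `NH`, all of whose leaves are minimal, and which is not a product foliation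
by planes. -/
theorem result : IsMetricLieGroup gH ∧ IsCMCFoliation gH NH ∧
    (∀ x, HasMeanCurvature gH NH x 0) ∧ ¬ IsProductByPlanes gH NH :=
  ⟨isMetricLieGroup_gH, isCMCFoliation_NH, meanCurvature_H, not_isProductByPlanes_NH⟩

end Pool.Agent.Results.MP_c71f82_gt.NonProductH2R
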